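import Pool.Agent.Q102.Wr.Bound

/-!
# MP_3fb3e0_al, Q1: `Conj_{F_p ≀ ℤ^k}(n) ⪯ 2^(n^k)`

`Q102.CD.Wr R A` is the restricted wreath product `R ≀ A`: pairs `(f, b)`, `f : A →₀ R`,
`b : A`, with `(f,b)(g,c) = (f + X^b g, b + c)`.  For a set `S` of a group,
`ball S n` is the set of products of at most `n` elements of `S ∪ S⁻¹`;
`sepIndices x y` is the set of the indices of the finite-index normal subgroups in whose
quotients `x` and `y` have non-conjugate images; `depth x y` is its least element;
`depths S n` is the set of the values `depth x y` over non-conjugate `x, y ∈ ball S n` and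
`ConjG S n` is the supremum of `depths S n`.
-/

namespace Pool.Agent.Results.MP_3fb3e0_al.FiniteBase

open Q102.CD

/-- For every prime `p`, every `k ≥ 1` and every finite generating set `S` of the restricted
wreath product `F_p ≀ ℤ^k`: non-conjugate elements are always separated by a finite-index
normal subgroup, and there is `C > 0` such that for all `n` the depths over the ball of
radius `n` are bounded and `Conj(n) ≤ C * 2 ^ ((C n)^k)`. -/
theorem result (p : ℕ) (hp : p.Prime) (k : ℕ) (hk : 1 ≤ k)
    (S : Set (Wr (ZMod p) (Fin k → ℤ))) (hS : S.Finite) (hgen : Subgroup.closure S = ⊤) :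
    (∀ x y : Wr (ZMod p) (Fin k → ℤ), ¬ IsConj x y → (sepIndices x y).Nonempty) ∧
    ∃ C : ℕ, 0 < C ∧ ∀ n : ℕ, BddAbove (depths S n) ∧
      ConjG S n ≤ C * 2 ^ ((C * n) ^ k) := by
  have : Fact p.Prime := ⟨hp⟩
  obtain ⟨C, hC, h⟩ := sepBy_fin p hk S hS
  exact ⟨sep_of hgen _ h, C, hC, fun n => (h n).conj_le⟩

end Pool.Agent.Results.MP_3fb3e0_al.FiniteBase
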