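import Pool.Agent.Q102.Wr.Bound

/-!
# MP_3fb3e0_al, Q2: `Conj_{ℤ ≀ ℤ^k}(n) ⪯ (log n)^(n^(2k))`, and indeed `⪯ n^(n^k)`

`Q102.CD.Wr R A` is the restricted wreath product `R ≀ A`: pairs `(f, b)`, `f : A →₀ R`,
`b : A`, with `(f,b)(g,c) = (f + X^b g, b + c)`.  For a set `S` of a group,
`ball S n` is the set of products of at most `n` elements of `S ∪ S⁻¹`;
`sepIndices x y` is the set of the indices of the finite-index normal subgroups in whose
quotients `x` and `y` have non-conjugate images; `depth x y` is its least element;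
`depths S n` is the set of the values `depth x y` over non-conjugate `x, y ∈ ball S n` and
`ConjG S n` is the supremum of `depths S n`.
-/

namespace Pool.Agent.Results.MP_3fb3e0_al.IntegralBase

open Q102.CD

/-- For every `k ≥ 1` and every finite generating set `S` of the restricted wreath product
`ℤ ≀ ℤ^k`: non-conjugate elements are always separated by a finite-index normal subgroup,
and there is `C > 0` such that for all `n` the depths over the ball of radius `n` are
bounded, `Conj(n) ≤ C * (C n) ^ ((C n)^k)`, and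
`Conj(n) ≤ C * (log (C n)) ^ ((C n)^(2k))`. -/
theorem result (k : ℕ) (hk : 1 ≤ k)
    (S : Set (Wr ℤ (Fin k → ℤ))) (hS : S.Finite) (hgen : Subgroup.closure S = ⊤) :
    (∀ x y : Wr ℤ (Fin k → ℤ), ¬ IsConj x y → (sepIndices x y).Nonempty) ∧
    ∃ C : ℕ, 0 < C ∧ ∀ n : ℕ, BddAbove (depths S n) ∧
      ConjG S n ≤ C * (C * n) ^ ((C * n) ^ k) ∧
      (ConjG S n : ℝ) ≤ (C : ℝ) * Real.log ((C : ℝ) * n) ^ ((C * n) ^ (2 * k)) := by
  obtain ⟨C, hC, h⟩ := sepBy_int' hk S hS
  refine ⟨sep_of hgen _ h, 8 * C, by positivity, fun n => ?_⟩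
  obtain ⟨h1, h2⟩ := (h n).conj_le
  refine ⟨h1, h2.trans ?_, ?_⟩
  · rcases Nat.eq_zero_or_pos n with rfl | hn
    · have e : (8 * C * 0) ^ ((8 * C * 0) ^ k) = 1 := by
        have : (8 * C * 0) ^ k = 0 := by rw [mul_zero]; exact zero_pow (by omega)
        rw [this, pow_zero]
      have e' : (C * 0) ^ ((C * 0) ^ k) = 1 := by
        have : (C * 0) ^ k = 0 := by rw [mul_zero]; exact zero_pow (by omega)
        rw [this, pow_zero]
      rw [e, e']; omega
    · have hM : C * n ≤ 8 * C * n := by nlinarith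
      have hM0 : 0 < 8 * C * n := by positivity
      refine Nat.mul_le_mul (by omega) ?_
      exact (Nat.pow_le_pow_left hM _).trans
        (Nat.pow_le_pow_right hM0 (Nat.pow_le_pow_left hM k))
  · rcases Nat.eq_zero_or_pos n with rfl | hn
    · have h0 := (sepBy_zero S 0).conj_le.2
      have h3 : ConjG S 0 = 0 := Nat.le_zero.1 h0
      have e : (8 * C * 0) ^ (2 * k) = 0 := by rw [mul_zero]; exact zero_pow (by omega)
      rw [h3, e, pow_zero]
      push_cast
      positivity
    · refine le_trans ?_ (compare hk C hC n hn)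
      exact_mod_cast h2

end Pool.Agent.Results.MP_3fb3e0_al.IntegralBase
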